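import Pool.Agent.ARV.Fin

set_option autoImplicit false
open Filter Classical

namespace Pool.Agent.Results.MP_991e92_nt.FullRangeSquareClass

/-- Artin's primitive root density with the correction factor inside one square class
`n = b m ^ 2`, `b = 1` modulo `4` squarefree, `b ≠ 1`, for all `x` in `[Y, exp T]`, uniformly in
`T ≥ 2`: with `u = log M / log T` at most
`M exp (-Y ^ κ) + C M ^ (1/2 + δ) + C M u ^ (-(1/2 - δ) u)` of the integers `m ≤ M` fail to have the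
predicted density up to `ε` at some `x` with `Y ≤ x ≤ exp T`. -/
theorem result :
    ∀ b : ℤ, Squarefree b → b % 4 = 1 → b ≠ 1 → ∀ δ ε : ℝ, 0 < δ → δ < 1 / 2 → 0 < ε →
      ∃ κ : ℝ, 0 < κ ∧ ∃ C : ℝ, 0 < C ∧ ∃ Y₀ : ℕ, ∀ M Y : ℕ, Y₀ ≤ Y → ∀ T : ℝ, 2 ≤ T →
      (((Finset.Icc 1 M).filter (fun m : ℕ =>
            ¬ (∀ x : ℕ, Y ≤ x → (x : ℝ) ≤ Real.exp T →
              |((((Finset.range (x + 1)).filter
                  (fun p : ℕ => p.Prime ∧
                    orderOf ((b * (m : ℤ) ^ 2 : ℤ) : ZMod p) = p - 1)).card : ℕ) : ℝ) /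
                  ((Nat.primeCounting x : ℕ) : ℝ) -
                (1 - ((ArithmeticFunction.moebius b.natAbs : ℤ) : ℝ) *
                    ∏ q ∈ b.natAbs.primeFactors, (1 / ((q : ℝ) ^ 2 - (q : ℝ) - 1))) *
                  ∏' p : Nat.Primes, (1 - 1 / (((p : ℕ) : ℝ) * (((p : ℕ) : ℝ) - 1)))| ≤ ε))).card : ℝ)
        ≤ M * Real.exp (-((Y : ℝ) ^ κ)) + C * (M : ℝ) ^ (1 / 2 + δ) +
          C * M * (Real.log M / Real.log T) ^ (-((1 / 2 - δ) * (Real.log M / Real.log T))) := by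
  intro b hb hb4 hb1 δ ε hδ hδ2 hε
  obtain ⟨κ, hκ, C, hC, Y₀, h⟩ := Pool.Agent.ARV.square_u b hb hb4 hb1 δ ε hδ hδ2 hε
  refine ⟨κ, hκ, C, hC, Y₀, fun M Y hY T hT => ?_⟩
  have h1 := h M Y hY T hT
  unfold Pool.Agent.ARS.SqBad Pool.Agent.ARX.share Pool.Agent.ARX.dens Pool.Agent.ARV.vv at h1
  rw [if_pos hb4] at h1
  convert h1

end Pool.Agent.Results.MP_991e92_nt.FullRangeSquareClass
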