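import Pool.Agent.ARP.Fiu

set_option autoImplicit false
open Filter Classical

namespace Pool.Agent.Results.MP_991e92_nt.LargestPrimeRange

/-- Artin's primitive root density with the correction factor, for all `x ≥ Y` up to
`exp (max (T, q ^ (1 / 13)))`, `q` the largest prime factor of `n`, uniformly in `T ≥ 2`: with
`u = log N / log T` all but at most
`N exp (-Y ^ κ) + C N u ^ (-(1/2 - δ) u) + C N exp (- (1 / 5) sqrt (log N log log N))` of the
integers `n = n' k ^ 2` (`n'` squarefree), `0 < |n| ≤ N`, have the predicted density up to `ε` at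
every integer `x ≥ Y` with `x ≤ exp T` or `x ≤ exp (q ^ (1 / 13))` for some prime `q ∣ n`. -/
theorem result :
    ∀ δ ε : ℝ, 0 < δ → δ < 1 / 4 → 0 < ε →
      ∃ κ : ℝ, 0 < κ ∧ ∃ C : ℝ, 0 < C ∧ ∃ Y₀ : ℕ, ∀ N Y : ℕ, Y₀ ≤ Y → ∀ T : ℝ, 2 ≤ T →
      (((Finset.Icc (-(N : ℤ)) N).filter (fun n : ℤ => n ≠ 0 ∧
          ∃ n' : ℤ, Squarefree n' ∧ (∃ k : ℤ, n = n' * k ^ 2) ∧
            ¬ (∀ x : ℕ, Y ≤ x → ((x : ℝ) ≤ Real.exp T ∨ ∃ q : ℕ, q.Prime ∧ (q : ℤ) ∣ n ∧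
                (x : ℝ) ≤ Real.exp ((q : ℝ) ^ (1 / 13 : ℝ))) →
              |((((Finset.range (x + 1)).filter
                  (fun p : ℕ => p.Prime ∧ orderOf (n : ZMod p) = p - 1)).card : ℕ) : ℝ) /
                  ((Nat.primeCounting x : ℕ) : ℝ) -
                (if n' % 4 = 1 then 1 - ((ArithmeticFunction.moebius n'.natAbs : ℤ) : ℝ) *
                    ∏ q ∈ n'.natAbs.primeFactors, (1 / ((q : ℝ) ^ 2 - (q : ℝ) - 1)) else 1) *
                  ∏' p : Nat.Primes, (1 - 1 / (((p : ℕ) : ℝ) * (((p : ℕ) : ℝ) - 1)))| ≤ ε))).card : ℝ)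
        ≤ N * Real.exp (-((Y : ℝ) ^ κ)) +
          C * N * (Real.log N / Real.log T) ^ (-((1 / 2 - δ) * (Real.log N / Real.log T))) +
          C * N * Real.exp (-(Real.sqrt (Real.log N * Real.log (Real.log N)) / 5)) := by
  intro δ ε hδ hδ2 hε
  obtain ⟨κ, hκ, C, hC, Y₀, h⟩ := Pool.Agent.ARP.largest_prime_T δ ε hδ hδ2 hε
  refine ⟨κ, hκ, C, hC, Y₀, fun N Y hY T hT => ?_⟩
  have h1 := h N Y hY T hT
  unfold Pool.Agent.ARP.UBad Pool.Agent.ARX.share Pool.Agent.ARX.dens Pool.Agent.ARP.SS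
    Pool.Agent.ARV.vv at h1
  convert h1

end Pool.Agent.Results.MP_991e92_nt.LargestPrimeRange
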